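import Pool.Agent.Work.MP_6ed805_an.Spr

/-!
# Uniform stable phase retrieval constants for self-embeddings of `C[1, ω^α]`

`C(Set.Icc 1 (ω ^ α), ℝ)` is the Banach lattice `C[1, ω^α]` (sup norm, pointwise order, `|f|` the
pointwise absolute value), for finite `α`.
-/

open scoped Ordinal

namespace Pool.Agent.Results.MP_6ed805_an.Uniform

/-- There is a constant `C` (in fact `C ≤ 45`) such that for every finite `α ≥ 3` there is a linear
isometric embedding `T` of `C[1, ω^α]` into itself whose range does `C`-stable phase retrieval. -/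
theorem result : ∃ C : ℝ, 1 ≤ C ∧ C ≤ 45 ∧ ∀ α : ℕ, 3 ≤ α →
    ∃ T : C(Set.Icc (1 : Ordinal.{0}) (ω ^ α), ℝ) →ₗᵢ[ℝ] C(Set.Icc (1 : Ordinal.{0}) (ω ^ α), ℝ),
      ∀ f ∈ T.toLinearMap.range, ∀ g ∈ T.toLinearMap.range,
        min ‖f - g‖ ‖f + g‖ ≤ C * ‖|f| - |g|‖ := by
  refine ⟨45, by norm_num, le_rfl, fun α hα => ?_⟩
  obtain ⟨T, hT⟩ := Pool.Agent.Work.MP_6ed805_an.hasSPR_ordinal hα
  refine ⟨T, ?_⟩
  rintro _ ⟨f, rfl⟩ _ ⟨g, rfl⟩
  exact hT f g

end Pool.Agent.Results.MP_6ed805_an.Uniform
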